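import Pool.Agent.X190.Fock

/-! A simple unital C*-algebra with two pure states which cannot be made equivalent by unique
extension: the C*-algebra generated by uncountably many isometries with orthogonal ranges. -/

set_option autoImplicit false

namespace Pool.Agent.Results.MP_8219a1_an.Disproof

open scoped ComplexOrder
open Filter Topology Pool.Agent.X190.States Pool.Agent.X190.Cuntz Pool.Agent.X190.Fock

universe v

/-- A C*-algebra is simple if it is nonzero and its only closed two-sided ideals are `0` and the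
whole algebra. -/
def IsSimpleCStar (A : Type*) [NonUnitalCStarAlgebra A] : Prop :=
  Nontrivial A ∧ ∀ I : TwoSidedIdeal A, IsClosed (I : Set A) → I = ⊥ ∨ I = ⊤

/-- The state space of a C*-algebra. -/
def stateSpace (B : Type*) [NonUnitalCStarAlgebra B] : Set (B →L[ℂ] ℂ) := {ω | IsState ω}

/-- A pure state: an extreme point of the state space. -/
def IsPure {B : Type*} [NonUnitalCStarAlgebra B] (ω : B →L[ℂ] ℂ) : Prop :=
  ω ∈ (stateSpace B).extremePoints ℝ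

/-- `φ'` is the unique state of `B` which extends the functional `φ` on `A` along the embedding
`ι : A → B`. -/
def IsUniqueStateExtension {A B : Type*} [NonUnitalCStarAlgebra A] [NonUnitalCStarAlgebra B]
    (ι : A →⋆ₙₐ[ℂ] B) (φ : A →L[ℂ] ℂ) (φ' : B →L[ℂ] ℂ) : Prop :=
  (IsState φ' ∧ ∀ a, φ' (ι a) = φ a) ∧ ∀ ω : B →L[ℂ] ℂ, IsState ω → (∀ a, ω (ι a) = φ a) → ω = φ'

/-- Two functionals `ρ, σ` on `B` are equivalent if `ρ = σ ∘ α` for a `*`-automorphism `α`. -/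
def Equivalent {B : Type*} [NonUnitalCStarAlgebra B] (ρ σ : B →L[ℂ] ℂ) : Prop :=
  ∃ α : B ≃⋆ₐ[ℂ] B, ∀ b, ρ b = σ (α b)

section

variable {B C : Type*} [NonUnitalCStarAlgebra B] [NonUnitalCStarAlgebra C]

/-- pullback of a functional along a homomorphism -/
noncomputable def pb (f : B →⋆ₙₐ[ℂ] C) (ω : C →L[ℂ] ℂ) : B →L[ℂ] ℂ :=
  ω.comp (LinearMap.mkContinuous ({ toFun := f, map_add' := map_add f, map_smul' := fun r x => map_smul f r x } : B →ₗ[ℂ] C) 1
    (fun x => by simpa using NonUnitalStarAlgHom.norm_apply_le f x))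

theorem pb_apply (f : B →⋆ₙₐ[ℂ] C) (ω : C →L[ℂ] ℂ) (b : B) : pb f ω b = ω (f b) := rfl

theorem pb_norm (f : B →⋆ₙₐ[ℂ] C) (ω : C →L[ℂ] ℂ) (h : ‖ω‖ ≤ 1) : ‖pb f ω‖ ≤ 1 := by
  apply ContinuousLinearMap.opNorm_le_bound _ zero_le_one
  intro x
  rw [pb_apply, one_mul]
  calc ‖ω (f x)‖ ≤ ‖ω‖ * ‖f x‖ := ω.le_opNorm _
    _ ≤ 1 * ‖x‖ := mul_le_mul h (NonUnitalStarAlgHom.norm_apply_le f x) (norm_nonneg _) zero_le_one
    _ = ‖x‖ := one_mul _

theorem pb_pos (f : B →⋆ₙₐ[ℂ] C) (ω : C →L[ℂ] ℂ) (h : Pos ω) : Pos (pb f ω) := by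
  intro b
  rw [pb_apply, map_mul, map_star]
  exact h _

/-- conjugated functional `b ↦ ω (t* b t)` -/
noncomputable def cj (t : B) (ω : B →L[ℂ] ℂ) : B →L[ℂ] ℂ :=
  ω.comp ((ContinuousLinearMap.mul ℂ B (star t)).comp ((ContinuousLinearMap.mul ℂ B).flip t))

theorem cj_apply (t : B) (ω : B →L[ℂ] ℂ) (b : B) : cj t ω b = ω (star t * (b * t)) := rfl

theorem cj_norm (t : B) (ht : ‖t‖ ≤ 1) (ω : B →L[ℂ] ℂ) (h : ‖ω‖ ≤ 1) : ‖cj t ω‖ ≤ 1 := by
  apply ContinuousLinearMap.opNorm_le_bound _ zero_le_one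
  intro x
  rw [cj_apply, one_mul]
  calc ‖ω (star t * (x * t))‖ ≤ ‖ω‖ * ‖star t * (x * t)‖ := ω.le_opNorm _
    _ ≤ 1 * ‖star t * (x * t)‖ := mul_le_mul_of_nonneg_right h (norm_nonneg _)
    _ = ‖star t * (x * t)‖ := one_mul _
    _ ≤ ‖star t‖ * (‖x‖ * ‖t‖) := (norm_mul_le _ _).trans
        (mul_le_mul_of_nonneg_left (norm_mul_le _ _) (norm_nonneg _))
    _ ≤ 1 * (‖x‖ * 1) := by
        rw [norm_star]
        exact mul_le_mul ht (mul_le_mul_of_nonneg_left ht (norm_nonneg _)) (by positivity) zero_le_one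
    _ = ‖x‖ := by ring

theorem cj_pos (t : B) (ω : B →L[ℂ] ℂ) (h : Pos ω) : Pos (cj t ω) := by
  intro b
  rw [cj_apply]
  have : star t * (star b * b * t) = star (b * t) * (b * t) := by
    rw [star_mul]; simp only [mul_assoc]
  rw [this]
  exact h _

end

theorem isPure_of {B : Type*} [NonUnitalCStarAlgebra B] {ω : B →L[ℂ] ℂ} (hω : IsState ω)
    (h : ∀ ω₁ ω₂ : B →L[ℂ] ℂ, IsState ω₁ → IsState ω₂ → ∀ a b : ℝ, 0 < a → 0 < b → a + b = 1 →
      (∀ x, (a : ℂ) * ω₁ x + (b : ℂ) * ω₂ x = ω x) → ω₁ = ω) : IsPure ω := by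
  refine ⟨hω, fun ω₁ h₁ ω₂ h₂ hseg => ?_⟩
  obtain ⟨a, b, ha, hb, hab, hs⟩ := hseg
  refine h ω₁ ω₂ h₁ h₂ a b ha hb hab fun x => ?_
  rw [← hs]
  simp

section Main

variable {κ : Type} {A : Type} [CStarAlgebra A] [Nontrivial A] (c : CuntzSys κ A)
  {φ ψ : A →L[ℂ] ℂ} {i₀ : κ}

theorem norm_s (i : κ) : ‖c.s i‖ = 1 := by
  have := CStarRing.norm_star_mul_self (x := c.s i)
  rw [c.iso, CStarRing.norm_one] at this
  nlinarith [norm_nonneg (c.s i)]

theorem pure_phi (hφ : IsState φ) (h0 : φ (c.s i₀) = 1) : IsPure φ := by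
  apply isPure_of hφ
  intro ω₁ ω₂ h₁ h₂ a b ha hb hab hx
  apply c.unique_phi h₁ hφ (i₀ := i₀) _ h0
  have hs := hx (c.s i₀)
  rw [h0] at hs
  have n₁ : ‖ω₁ (c.s i₀)‖ ≤ 1 := by
    have := ω₁.le_opNorm (c.s i₀)
    rwa [h₁.norm_eq, norm_s, one_mul] at this
  have n₂ : ‖ω₂ (c.s i₀)‖ ≤ 1 := by
    have := ω₂.le_opNorm (c.s i₀)
    rwa [h₂.norm_eq, norm_s, one_mul] at this
  have hre := congrArg Complex.re hs
  simp only [Complex.add_re, Complex.mul_re, Complex.ofReal_re, Complex.ofReal_im, zero_mul,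
    sub_zero, Complex.one_re] at hre
  have r₁ : (ω₁ (c.s i₀)).re ≤ 1 := (Complex.re_le_norm _).trans n₁
  have r₂ : (ω₂ (c.s i₀)).re ≤ 1 := (Complex.re_le_norm _).trans n₂
  have r : (ω₁ (c.s i₀)).re = 1 := by
    by_contra hne
    have hlt : (ω₁ (c.s i₀)).re < 1 := lt_of_le_of_ne r₁ hne
    nlinarith
  have him : (ω₁ (c.s i₀)).im = 0 := by
    have h3 : (ω₁ (c.s i₀)).re ^ 2 + (ω₁ (c.s i₀)).im ^ 2 ≤ 1 := by
      have h4 := Complex.sq_norm (ω₁ (c.s i₀))
      rw [Complex.normSq_apply] at h4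
      nlinarith [norm_nonneg (ω₁ (c.s i₀))]
    rw [r] at h3
    nlinarith [sq_nonneg (ω₁ (c.s i₀)).im]
  exact Complex.ext r him

theorem pure_psi (hψ : IsState ψ) (h0 : ∀ i, ψ (c.s i * star (c.s i)) = 0) : IsPure ψ := by
  apply isPure_of hψ
  intro ω₁ ω₂ h₁ h₂ a b ha hb hab hx
  apply c.unique_psi h₁ hψ _ h0
  intro i
  have hs := hx (c.s i * star (c.s i))
  rw [h0] at hs
  have p₁ : 0 ≤ ω₁ (c.s i * star (c.s i)) := by
    have := h₁.nonneg (star (c.s i))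
    rwa [star_star] at this
  have p₂ : 0 ≤ ω₂ (c.s i * star (c.s i)) := by
    have := h₂.nonneg (star (c.s i))
    rwa [star_star] at this
  rw [Complex.nonneg_iff] at p₁ p₂
  have hre := congrArg Complex.re hs
  simp only [Complex.add_re, Complex.mul_re, Complex.ofReal_re, Complex.ofReal_im, zero_mul,
    sub_zero, Complex.zero_re] at hre
  apply Complex.ext
  · simp only [Complex.zero_re]
    nlinarith [mul_nonneg ha.le p₁.1, mul_nonneg hb.le p₂.1, p₁.1]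
  · exact p₁.2.symm

variable {B : Type v} [NonUnitalCStarAlgebra B] (ι : A →⋆ₙₐ[ℂ] B)

theorem norm_iota_one : ‖ι (1 : A)‖ ≤ 1 := by
  have := NonUnitalStarAlgHom.norm_apply_le ι (1 : A)
  rwa [CStarRing.norm_one] at this

/-- a positive contractive functional with value one at `ι 1` is a state of `B` and restricts to a
state of `A` -/
theorem state_of_one {ω : B →L[ℂ] ℂ} (hp : Pos ω) (hn : ‖ω‖ ≤ 1) (h1 : ω (ι 1) = 1) :
    IsState ω ∧ IsState (pb ι ω) := by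
  refine ⟨⟨hp, le_antisymm hn ?_⟩, isState_of (pb_pos ι ω hp) (pb_norm ι ω hn) h1⟩
  have h2 := ω.le_opNorm (ι 1)
  rw [h1] at h2
  have h3 : ‖ω‖ * ‖ι (1 : A)‖ ≤ ‖ω‖ * 1 := mul_le_mul_of_nonneg_left (norm_iota_one ι) (norm_nonneg _)
  simp only [norm_one, mul_one] at h2 h3
  linarith

theorem main [Uncountable κ] (hφ : IsState φ) (h0 : φ (c.s i₀) = 1)
    (hψ : IsState ψ) (h0' : ∀ i, ψ (c.s i * star (c.s i)) = 0)
    {φ' ψ' : B →L[ℂ] ℂ} (hφ' : IsUniqueStateExtension ι φ φ')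
    (hψ' : IsUniqueStateExtension ι ψ ψ') (heq : Equivalent φ' ψ') : False := by
  classical
  obtain ⟨α, hα⟩ := heq
  set d : B := α (ι (c.s i₀)) with hd
  have hψ1 : ψ' (ι 1) = 1 := by rw [hψ'.1.2, hψ.map_one]
  have hψd : ψ' d = 1 := by rw [hd, ← hα, hφ'.1.2, h0]
  -- uniqueness claim A
  have claimA : ∀ ω : B →L[ℂ] ℂ, Pos ω → ‖ω‖ ≤ 1 → ω d = 1 → ω = ψ' := by
    intro ω hp hn h1
    set αh : B →⋆ₙₐ[ℂ] B := (α : B →⋆ₙₐ[ℂ] B) with hαh
    set ω₁ : B →L[ℂ] ℂ := pb αh ω with hω₁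
    have a0 : ∀ b, ω₁ b = ω (α b) := fun b => rfl
    have p1 : Pos ω₁ := pb_pos _ _ hp
    have n1 : ‖ω₁‖ ≤ 1 := pb_norm _ _ hn
    have v1 : ω₁ (ι (c.s i₀)) = 1 := by rw [a0]; exact h1
    have v2 : ω₁ (ι 1) = 1 := by
      have hcs := p1.cs (ι 1) (ι (c.s i₀))
      rw [← map_star, ← map_star, ← map_mul, ← map_mul, ← map_mul, star_one, one_mul, one_mul,
        c.iso, v1] at hcs
      have hnn := Complex.nonneg_iff.mp (p1 (ι 1))
      rw [← map_star, ← map_mul, star_one, one_mul] at hnn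
      have hle : (ω₁ (ι 1)).re ≤ 1 := by
        calc (ω₁ (ι 1)).re ≤ ‖ω₁ (ι 1)‖ := Complex.re_le_norm _
          _ ≤ ‖ω₁‖ * ‖ι (1 : A)‖ := ω₁.le_opNorm _
          _ ≤ 1 * 1 := mul_le_mul n1 (norm_iota_one ι) (norm_nonneg _) zero_le_one
          _ = 1 := one_mul _
      simp only [norm_one, one_pow] at hcs
      apply Complex.ext
      · simp only [Complex.one_re]; nlinarith [hnn.1]
      · simp only [Complex.one_im]; exact hnn.2.symm
    obtain ⟨s1, s2⟩ := state_of_one ι p1 n1 v2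
    have e1 : pb ι ω₁ = φ := c.unique_phi s2 hφ v1 h0
    have e2 : ω₁ = φ' := hφ'.2 ω₁ s1 (fun a => by rw [← e1]; rfl)
    ext b
    have h3 := congrArg (fun f : B →L[ℂ] ℂ => f (α.symm b)) e2
    simp only [a0, hα] at h3
    simpa using h3
  -- uniqueness claim B
  have claimB : ∀ ω : B →L[ℂ] ℂ, Pos ω → ‖ω‖ ≤ 1 → ω (ι 1) = 1 →
      (∀ i, ω (ι (c.s i * star (c.s i))) = 0) → ω = ψ' := by
    intro ω hp hn h1 hz
    obtain ⟨s1, s2⟩ := state_of_one ι hp hn h1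
    have e1 : pb ι ω = ψ := c.unique_psi s2 hψ hz h0'
    exact hψ'.2 ω s1 (fun a => by rw [← e1]; rfl)
  -- finite dependence
  have claimC : ∀ k : ℕ, ∃ F : Finset κ, ∀ ω : B →L[ℂ] ℂ, Pos ω → ‖ω‖ ≤ 1 → ω (ι 1) = 1 →
      (∀ i ∈ F, ω (ι (c.s i * star (c.s i))) = 0) → ‖ω d - 1‖ < 1 / ((k : ℝ) + 1) := by
    intro k
    by_contra hcon
    push Not at hcon
    choose f hf1 hf2 hf3 hf4 hf5 using hcon
    obtain ⟨ω, hω, hlim⟩ := exists_limit (Ultrafilter.of (atTop : Filter (Finset κ))) f hf2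
    have hle : ((Ultrafilter.of (atTop : Filter (Finset κ)) : Filter (Finset κ))) ≤ atTop :=
      Ultrafilter.of_le _
    have q1 : Pos ω := pos_of_tendsto hf1 hlim
    have q2 : ω (ι 1) = 1 := by
      refine tendsto_nhds_unique (hlim _) ?_
      simp only [hf3]; exact tendsto_const_nhds
    have q3 : ∀ i, ω (ι (c.s i * star (c.s i))) = 0 := by
      intro i
      refine tendsto_nhds_unique (hlim _) ?_
      refine Tendsto.congr' ?_ tendsto_const_nhds
      have : ∀ᶠ F : Finset κ in atTop, i ∈ F := by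
        filter_upwards [eventually_ge_atTop ({i} : Finset κ)] with F hF
        exact hF (Finset.mem_singleton_self i)
      filter_upwards [hle this] with F hF
      exact (hf4 F i hF).symm
    have q4 := claimB ω q1 hω q2 q3
    have q5 : Tendsto (fun F => ‖f F d - 1‖) (Ultrafilter.of (atTop : Filter (Finset κ))) (𝓝 ‖ω d - 1‖) :=
      ((hlim d).sub_const 1).norm
    have q6 : 1 / ((k : ℝ) + 1) ≤ ‖ω d - 1‖ := ge_of_tendsto q5 (Eventually.of_forall hf5)
    rw [q4, hψd] at q6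
    have : (0 : ℝ) < 1 / ((k : ℝ) + 1) := by positivity
    simp at q6
    have h7 : (0 : ℝ) < (k : ℝ) + 1 := by positivity
    linarith
  choose F hF using claimC
  have hcount : (⋃ k, (F k : Set κ)).Countable :=
    Set.countable_iUnion fun k => (F k).countable_toSet
  obtain ⟨j, hj⟩ : ∃ j, j ∉ (⋃ k, (F k : Set κ)) := by
    by_contra hcon
    push Not at hcon
    have : (Set.univ : Set κ).Countable := hcount.mono fun x _ => hcon x
    exact Set.not_countable_univ this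
  set t : B := ι (c.s j) with ht
  have htn : ‖t‖ ≤ 1 := by
    have := NonUnitalStarAlgHom.norm_apply_le ι (c.s j)
    rwa [norm_s] at this
  set ω : B →L[ℂ] ℂ := cj t ψ' with hω
  have w1 : Pos ω := cj_pos t ψ' hψ'.1.1.nonneg
  have w2 : ‖ω‖ ≤ 1 := cj_norm t htn ψ' hψ'.1.1.norm_eq.le
  have w0 : ∀ a : A, ω (ι a) = ψ (star (c.s j) * (a * c.s j)) := by
    intro a
    rw [hω, cj_apply, ht, ← map_star, ← map_mul, ← map_mul, hψ'.1.2]
  have w3 : ω (ι 1) = 1 := by rw [w0, one_mul, c.iso, hψ.map_one]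
  have w4 : ∀ i, i ≠ j → ω (ι (c.s i * star (c.s i))) = 0 := by
    intro i hi
    rw [w0, mul_assoc, c.orth i j hi, mul_zero, mul_zero, map_zero]
  have w5 : ω d = 1 := by
    have : ∀ k : ℕ, ‖ω d - 1‖ < 1 / ((k : ℝ) + 1) := by
      intro k
      apply hF k ω w1 w2 w3
      intro i hi
      apply w4
      rintro rfl
      exact hj (Set.mem_iUnion.2 ⟨k, hi⟩)
    have hz : ‖ω d - 1‖ ≤ 0 :=
      ge_of_tendsto tendsto_one_div_add_atTop_nhds_zero_nat (Eventually.of_forall fun k => (this k).le)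
    have := norm_le_zero_iff.mp hz
    exact sub_eq_zero.mp this
  have w6 := claimA ω w1 w2 w5
  have w7 : ω (ι (c.s j * star (c.s j))) = 1 := by
    rw [w0]
    have : star (c.s j) * (c.s j * star (c.s j) * c.s j) = 1 := by
      rw [mul_assoc, c.iso, mul_one, c.iso]
    rw [this, hψ.map_one]
  rw [w6, hψ'.1.2, h0'] at w7
  exact zero_ne_one w7

end Main

/-- There are a simple (unital) C*-algebra `A` and pure states `φ`, `ψ` of `A` such that no
C*-algebra `B` containing `A` has the property that `φ` and `ψ` have unique state extensions to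
`B` and these extensions are equivalent under an automorphism of `B`. -/
theorem result : ∃ (A : Type) (_ : CStarAlgebra A), IsSimpleCStar A ∧
    ∃ φ ψ : A →L[ℂ] ℂ, IsPure φ ∧ IsPure ψ ∧
      ∀ (B : Type v) [NonUnitalCStarAlgebra B] (ι : A →⋆ₙₐ[ℂ] B), Function.Injective ι →
        ¬ ∃ φ' ψ' : B →L[ℂ] ℂ, IsUniqueStateExtension ι φ φ' ∧ IsUniqueStateExtension ι ψ ψ' ∧
          Equivalent φ' ψ' := by
  obtain ⟨φ, hφ, h0⟩ := exists_phi (0 : ℝ)
  refine ⟨AA ℝ, inferInstance, ⟨inferInstance, fun I _ => AA_simple I⟩, φ, vac ℝ,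
    pure_phi (sys ℝ) hφ h0, pure_psi (sys ℝ) vac_state vac_gs, ?_⟩
  intro B _ ι _
  rintro ⟨φ', ψ', h1, h2, h3⟩
  exact main (sys ℝ) ι hφ h0 vac_state vac_gs h1 h2 h3

end Pool.Agent.Results.MP_8219a1_an.Disproof
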